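import Mathlib

/-! Elementary inequalities for unit vectors in the plane. -/

namespace Pool.Agent.Lib.MP_6a1796_co

/-- two unit vectors within 30 degrees of a common unit vector are within 60 degrees -/
lemma dot_gt_half (u v a b a' b' : ℝ) (hu : u ^ 2 + v ^ 2 = 1) (ha : a ^ 2 + b ^ 2 = 1)
    (ha' : a' ^ 2 + b' ^ 2 = 1) (h1 : 0 < u * a + v * b) (h2 : 0 < u * a' + v * b')
    (h3 : 3 / 4 < (u * a + v * b) ^ 2) (h4 : 3 / 4 < (u * a' + v * b') ^ 2) :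
    1 / 2 < a * a' + b * b' := by
  set p := u * a + v * b with hp
  set p' := u * a' + v * b' with hp'
  set q := u * b - v * a with hq
  set q' := u * b' - v * a' with hq'
  have e1 : p ^ 2 + q ^ 2 = 1 := by
    have : p ^ 2 + q ^ 2 = (u ^ 2 + v ^ 2) * (a ^ 2 + b ^ 2) := by rw [hp, hq]; ring
    rw [this, hu, ha]; norm_num
  have e2 : p' ^ 2 + q' ^ 2 = 1 := by
    have : p' ^ 2 + q' ^ 2 = (u ^ 2 + v ^ 2) * (a' ^ 2 + b' ^ 2) := by rw [hp', hq']; ring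
    rw [this, hu, ha']; norm_num
  have e3 : a * a' + b * b' = p * p' + q * q' := by
    have : p * p' + q * q' = (u ^ 2 + v ^ 2) * (a * a' + b * b') := by
      rw [hp, hq, hp', hq']; ring
    rw [this, hu]; ring
  rw [e3]
  have h5 : 3 / 4 < p * p' := by
    by_contra hc
    push Not at hc
    have h6 : (p * p') ^ 2 ≤ (3 / 4) ^ 2 := by
      apply pow_le_pow_left₀ (by positivity) hc
    have h7 : (3 / 4) * (3 / 4) < p ^ 2 * p' ^ 2 :=
      mul_lt_mul'' h3 h4 (by norm_num) (by norm_num)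
    nlinarith
  nlinarith [sq_nonneg (q + q')]

lemma aux_L2 (l α β g k : ℝ) (hl0 : 0 < l) (hl : 3 / 4 < l ^ 2) (h1 : α ^ 2 + β ^ 2 = 1)
    (h2 : g ^ 2 + k ^ 2 = 1) (hg : 1 / 2 ≤ g) (hα : l ≤ α) : α * (1 - g) + β * k < l := by
  obtain ⟨r, hr0, hr⟩ : ∃ r : ℝ, 0 < r ∧ r ^ 2 = 3 :=
    ⟨Real.sqrt 3, by positivity, Real.sq_sqrt (by norm_num)⟩
  have hα0 : 0 < α := lt_of_lt_of_le hl0 hα
  have hα2 : 3 / 4 < α ^ 2 := lt_of_lt_of_le hl (pow_le_pow_left₀ hl0.le hα 2)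
  set w := |β| with hw
  have hw0 : 0 ≤ w := abs_nonneg _
  have hw2 : w ^ 2 = β ^ 2 := sq_abs β
  have hwlt : w < 1 / 2 := by nlinarith
  have hk : |k| ≤ r / 2 := by
    apply abs_le_of_sq_le_sq' _ (by positivity) |> abs_le.mpr
    nlinarith
  have hβk : β * k ≤ w * (r / 2) := by
    calc β * k ≤ |β * k| := le_abs_self _
      _ = w * |k| := abs_mul _ _
      _ ≤ w * (r / 2) := mul_le_mul_of_nonneg_left hk hw0
  have hαg : α * (1 - g) ≤ α / 2 := by nlinarith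
  have hrα : 3 / 2 < r * α := by
    by_contra hc
    push Not at hc
    have : (r * α) ^ 2 ≤ (3 / 2) ^ 2 := pow_le_pow_left₀ (by positivity) hc 2
    nlinarith
  have h5 : 1 / 2 < r * α / 2 - w / 2 := by linarith
  have h6 : (α / 2 + w * (r / 2)) ^ 2 = 1 - (r * α / 2 - w / 2) ^ 2 := by
    have : (α / 2 + w * (r / 2)) ^ 2 + (r * α / 2 - w / 2) ^ 2
        = (α ^ 2 + w ^ 2) * (1 + r ^ 2) / 4 := by ring
    rw [hw2, h1, hr] at this
    linarith
  have h7 : (α / 2 + w * (r / 2)) ^ 2 < l ^ 2 := by nlinarith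
  have h8 : α / 2 + w * (r / 2) < l := lt_of_pow_lt_pow_left₀ 2 hl0.le h7
  linarith

/-- normals of strips through two edges at a common point are more than 60 degrees apart -/
lemma normals_lt_half (l u v u' v' a b a' b' : ℝ) (hl0 : 0 < l) (hl : 3 / 4 < l ^ 2)
    (hu : u ^ 2 + v ^ 2 = 1) (hu' : u' ^ 2 + v' ^ 2 = 1) (ha : a ^ 2 + b ^ 2 = 1)
    (ha' : a' ^ 2 + b' ^ 2 = 1)
    (h1 : l ≤ u * a + v * b) (h2 : l ≤ (u * a + v * b) - (u * a' + v * b'))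
    (h3 : l ≤ u' * a' + v' * b') (h4 : l ≤ (u' * a' + v' * b') - (u' * a + v' * b)) :
    u * u' + v * v' < 1 / 2 := by
  by_contra hc
  push Not at hc
  set g := u * u' + v * v' with hg
  set k := u * v' - v * u' with hk
  set α := u * a + v * b with hα
  set β := u * b - v * a with hβ
  set α' := u' * a' + v' * b' with hα'
  set β' := u' * b' - v' * a' with hβ'
  have e0 : g ^ 2 + k ^ 2 = 1 := by
    have : g ^ 2 + k ^ 2 = (u ^ 2 + v ^ 2) * (u' ^ 2 + v' ^ 2) := by rw [hg, hk]; ring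
    rw [this, hu, hu']; norm_num
  have e1 : α ^ 2 + β ^ 2 = 1 := by
    have : α ^ 2 + β ^ 2 = (u ^ 2 + v ^ 2) * (a ^ 2 + b ^ 2) := by rw [hα, hβ]; ring
    rw [this, hu, ha]; norm_num
  have e2 : α' ^ 2 + β' ^ 2 = 1 := by
    have : α' ^ 2 + β' ^ 2 = (u' ^ 2 + v' ^ 2) * (a' ^ 2 + b' ^ 2) := by rw [hα', hβ']; ring
    rw [this, hu', ha']; norm_num
  have e3 : u' * a + v' * b = α * g + β * k := by
    have : α * g + β * k = (u ^ 2 + v ^ 2) * (u' * a + v' * b) := by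
      rw [hα, hβ, hg, hk]; ring
    rw [this, hu]; ring
  have e4 : u * a' + v * b' = α' * g - β' * k := by
    have : α' * g - β' * k = (u' ^ 2 + v' ^ 2) * (u * a' + v * b') := by
      rw [hα', hβ', hg, hk]; ring
    rw [this, hu']; ring
  rcases le_total α α' with h | h
  · have := aux_L2 l α' β' g k hl0 hl e2 e0 hc h3
    rw [e4] at h2
    linarith
  · have := aux_L2 l α (-β) g k hl0 hl (by rw [neg_sq]; exact e1) e0 hc h1
    rw [e3] at h4
    linarith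

/-- an edge whose normal is within 60 degrees of the vertical axis goes up -/
lemma up_pos (l u v a b : ℝ) (hl0 : 0 < l) (hl : 3 / 4 < l ^ 2) (hu : u ^ 2 + v ^ 2 = 1)
    (ha : a ^ 2 + b ^ 2 = 1) (hv : 1 / 2 ≤ v) (h : l ≤ u * a + v * b) : 0 < b := by
  by_contra hc
  push Not at hc
  have h1 : l ≤ u * a := by nlinarith
  have h2 : l ^ 2 ≤ (u * a) ^ 2 := pow_le_pow_left₀ hl0.le h1 2
  have h3 : a ^ 2 ≤ 1 := by nlinarith
  have h4 : u ^ 2 ≤ 3 / 4 := by nlinarith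
  nlinarith [mul_pow u a 2, sq_nonneg u, sq_nonneg a]

lemma lam_gt (l : ℝ) (hl0 : 0 < l) (hl : 3 / 4 < l ^ 2) : 0.866 < l := by
  by_contra hc
  push Not at hc
  nlinarith

lemma two_up_aux (l u v s t s' t' : ℝ) (hl0 : 0 < l) (hl : 3 / 4 < l ^ 2)
    (hu : u ^ 2 + v ^ 2 = 1) (hd : s ^ 2 + t ^ 2 = 1) (hd' : s' ^ 2 + t' ^ 2 = 1)
    (hv : 1 / 2 ≤ v) (ht : 0 < t) (ht' : 0 < t') (hs : 0 ≤ s) (hss : s ≤ s')
    (hdd : s * s' + t * t' ≤ 1 / 2)
    (h1 : l ≤ u * s' + v * t') (h2 : l ≤ (u * s' + v * t') - (u * s + v * t)) : False := by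
  have hl' := lam_gt l hl0 hl
  have hs' : 0 ≤ s' := le_trans hs hss
  have htt : t' ≤ t := by
    apply abs_le_of_sq_le_sq' _ ht.le |>.2
    nlinarith
  have h3 : s ^ 2 + t' ^ 2 ≤ 1 / 2 := by nlinarith
  have h4 : 0.7 ≤ t := by
    by_contra hc
    push Not at hc
    nlinarith
  have h5 : t' ≤ 0.71 := by
    by_contra hc
    push Not at hc
    nlinarith
  have hv1 : v ≤ 1 := by nlinarith
  have h6 : 0 < u * s' := by nlinarith
  have h7 : 0 < u := by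
    by_contra hc
    push Not at hc
    nlinarith
  have h8 : u * s' + v * t' ≤ 1 := by nlinarith [sq_nonneg (u - s'), sq_nonneg (v - t')]
  have h9 : 0 ≤ u * s := by positivity
  nlinarith

/-- two upward edges at a point cannot both lean weakly to the right -/
lemma two_up (l u v u' v' s t s' t' : ℝ) (hl0 : 0 < l) (hl : 3 / 4 < l ^ 2)
    (hu : u ^ 2 + v ^ 2 = 1) (hu' : u' ^ 2 + v' ^ 2 = 1)
    (hd : s ^ 2 + t ^ 2 = 1) (hd' : s' ^ 2 + t' ^ 2 = 1)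
    (hv : 1 / 2 ≤ v) (hv' : 1 / 2 ≤ v') (hs : 0 ≤ s) (hs' : 0 ≤ s')
    (hdd : s * s' + t * t' ≤ 1 / 2)
    (h1 : l ≤ u * s + v * t) (h2 : l ≤ (u * s + v * t) - (u * s' + v * t'))
    (h3 : l ≤ u' * s' + v' * t') (h4 : l ≤ (u' * s' + v' * t') - (u' * s + v' * t)) : False := by
  have ht := up_pos l u v s t hl0 hl hu hd hv h1
  have ht' := up_pos l u' v' s' t' hl0 hl hu' hd' hv' h3
  rcases le_total s s' with h | h
  · exact two_up_aux l u' v' s t s' t' hl0 hl hu' hd hd' hv' ht ht' hs h hdd h3 h4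
  · exact two_up_aux l u v s' t' s t hl0 hl hu hd' hd hv ht' ht hs' h (by linarith) h1 h2

lemma sq_big (s t c c' : ℝ) (hd : s ^ 2 + t ^ 2 = 1) (ht : 0 < t) (h1 : -c ≤ s) (h2 : s ≤ c)
    (hc' : c' ^ 2 + c ^ 2 ≤ 1) : c' ≤ t := by
  have h3 : s ^ 2 ≤ c ^ 2 := sq_le_sq' h1 h2
  exact (abs_le_of_sq_le_sq' (by linarith) ht.le).2

lemma le_one_of_unit (a b : ℝ) (ha : a ^ 2 + b ^ 2 = 1) : -1 ≤ b ∧ b ≤ 1 :=
  abs_le_of_sq_le_sq' (by nlinarith [sq_nonneg a]) (by norm_num)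

lemma lean_aux (a b s t s' t' : ℝ) (ha : a ^ 2 + b ^ 2 = 1) (hd : s ^ 2 + t ^ 2 = 1)
    (hd' : s' ^ 2 + t' ^ 2 = 1) (ha1 : 1 / 2 < a) (ht : 0 < t) (ht' : 0 < t')
    (hs : 0 < s) (hs' : s' ≤ 0) (hs1 : s ≤ 0.32) (hs2 : -0.32 ≤ s') (hs3 : s - s' ≤ 0.48) :
    (a + s' - s) ^ 2 + (b + t' - t) ^ 2 < 1 := by
  have h1 : 0.94 ≤ t := sq_big s t 0.32 0.94 hd ht (by linarith) hs1 (by norm_num)
  have h2 : 0.94 ≤ t' := sq_big s' t' 0.32 0.94 hd' ht' (by linarith) (by linarith) (by norm_num)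
  obtain ⟨hb2, hb1⟩ := le_one_of_unit a b ha
  obtain ⟨δ, hδ⟩ : ∃ δ, δ = s - s' := ⟨_, rfl⟩
  obtain ⟨ε, hε⟩ : ∃ ε, ε = t' - t := ⟨_, rfl⟩
  have hδ0 : 0 < δ := by linarith
  have hδ1 : δ ≤ 0.48 := by linarith
  have h3 : ε * (t + t') = δ * (s + s') := by
    rw [hε, hδ]; linear_combination hd' - hd
  have h31 : δ * (s + s') ≤ δ * 0.32 := mul_le_mul_of_nonneg_left (by linarith) hδ0.le
  have h32 : δ * (-0.32) ≤ δ * (s + s') := mul_le_mul_of_nonneg_left (by linarith) hδ0.le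
  have h4 : ε ≤ 0.18 * δ := by
    by_contra hc
    push Not at hc
    have : 0.18 * δ * 1.88 ≤ ε * (t + t') :=
      mul_le_mul hc.le (by linarith) (by norm_num) (by linarith)
    linarith
  have h5 : -(0.18 * δ) ≤ ε := by
    by_contra hc
    push Not at hc
    have : 0.18 * δ * 1.88 ≤ (-ε) * (t + t') :=
      mul_le_mul (by linarith) (by linarith) (by norm_num) (by linarith)
    linarith
  have h6 : b * ε ≤ 0.18 * δ := by
    rcases le_total 0 ε with h | h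
    · have : b * ε ≤ 1 * ε := mul_le_mul_of_nonneg_right hb1 h
      linarith
    · have : b * ε ≤ (-1) * ε := mul_le_mul_of_nonpos_right hb2 h
      linarith
  have h7 : ε ^ 2 ≤ (0.18 * δ) ^ 2 := sq_le_sq' h5 h4
  have h8 : (a + s' - s) ^ 2 + (b + t' - t) ^ 2
      = 1 - 2 * (a * δ) + 2 * (b * ε) + δ ^ 2 + ε ^ 2 := by
    rw [hδ, hε]; linear_combination ha
  have h9 : 1 / 2 * δ ≤ a * δ := mul_le_mul_of_nonneg_right ha1.le hδ0.le
  have h10 : δ * δ ≤ 0.48 * δ := mul_le_mul_of_nonneg_right hδ1 hδ0.le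
  have h11 : (0.18 * δ) ^ 2 = 0.0324 * (δ * δ) := by ring
  have h12 : δ ^ 2 = δ * δ := by ring
  rw [h8]
  linarith

lemma lean_key (u v s t s' t' : ℝ) (hu' : 0.866 < u) (hd : s ^ 2 + t ^ 2 = 1)
    (hd' : s' ^ 2 + t' ^ 2 = 1) (ht : 0 < t) (hs : 0 ≤ s) (hs' : s' ≤ 0)
    (hv : 0 ≤ v) (h6 : u * s + v * t ≤ 0.134) (h7 : -0.134 ≤ u * s' + v * t') :
    s ≤ 0.155 ∧ -0.32 ≤ s' := by
  have a1 : 0.866 * s ≤ u * s := mul_le_mul_of_nonneg_right hu'.le hs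
  have a2 : 0 ≤ v * t := by positivity
  have b1 : s ≤ 0.155 := by linarith
  have b2 : 0.98 ≤ t := sq_big s t 0.155 0.98 hd ht (by linarith) b1 (by norm_num)
  have a3 : v * 0.98 ≤ v * t := mul_le_mul_of_nonneg_left b2 hv
  have a4 : 0 ≤ u * s := by positivity
  have a5 : v * t' ≤ v * 1 := mul_le_mul_of_nonneg_left (le_one_of_unit s' t' hd').2 hv
  have a6 : u * s' ≤ 0.866 * s' := mul_le_mul_of_nonpos_right hu'.le hs'
  exact ⟨b1, by linarith⟩

/-- leaning to the right propagates along a nearly horizontal edge -/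
lemma lean_right (l u v a b s t s' t' : ℝ) (hl0 : 0 < l) (hl : 3 / 4 < l ^ 2)
    (hu : u ^ 2 + v ^ 2 = 1) (hu0 : 0 < u) (hv1 : v < 1 / 2) (hv2 : -(1 / 2) < v)
    (ha : a ^ 2 + b ^ 2 = 1) (hd : s ^ 2 + t ^ 2 = 1)
    (hd' : s' ^ 2 + t' ^ 2 = 1) (ht : 0 < t) (ht' : 0 < t') (hs : 0 < s)
    (h1 : l ≤ u * a + v * b)
    (h2 : l ≤ (u * a + v * b) - (u * s + v * t))
    (h3 : l ≤ (u * a + v * b) + (u * s' + v * t'))
    (h4 : 1 ≤ (a + s' - s) ^ 2 + (b + t' - t) ^ 2) : 0 < s' := by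
  by_contra hs'
  push Not at hs'
  have hl' := lam_gt l hl0 hl
  have hv3 : v ^ 2 < (1 / 2) ^ 2 := sq_lt_sq' hv2 hv1
  have hu2 : 3 / 4 < u ^ 2 := by linarith
  have hu' := lam_gt u hu0 hu2
  have ha1 : 1 / 2 < a := by
    have := dot_gt_half u v a b 1 0 hu ha (by norm_num) (by linarith) (by linarith)
      (lt_of_lt_of_le hl (pow_le_pow_left₀ hl0.le h1 2)) (by simpa using hu2)
    linarith
  have h5 : u * a + v * b ≤ 1 := by
    have : 2 * (u * a + v * b) = (u ^ 2 + v ^ 2) + (a ^ 2 + b ^ 2)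
      - (u - a) ^ 2 - (v - b) ^ 2 := by ring
    have h51 := sq_nonneg (u - a)
    have h52 := sq_nonneg (v - b)
    linarith
  have h6 : u * s + v * t ≤ 0.134 := by linarith
  have h7 : -0.134 ≤ u * s' + v * t' := by linarith
  have key : s ≤ 0.32 ∧ -0.32 ≤ s' ∧ s - s' ≤ 0.48 := by
    rcases le_total 0 v with hv | hv
    · obtain ⟨b1, b4⟩ := lean_key u v s t s' t' hu' hd hd' ht hs.le hs' hv h6 h7
      exact ⟨by linarith, b4, by linarith⟩
    · obtain ⟨b1, b4⟩ := lean_key u (-v) (-s') t' (-s) t hu' (by rw [neg_sq]; exact hd')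
        (by rw [neg_sq]; exact hd) ht' (by linarith) (by linarith) (by linarith)
        (by linarith) (by linarith)
      exact ⟨by linarith, by linarith, by linarith⟩
  have := lean_aux a b s t s' t' ha hd hd' ha1 ht ht' hs hs' key.1 key.2.1 key.2.2
  linarith

end Pool.Agent.Lib.MP_6a1796_co
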