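import Mathlib
import Pool.Agent.Lib.MP_6a1796_co.Alg

/-! Point configurations with empty strips; the wedge lemma. -/

namespace Pool.Agent.Lib.MP_6a1796_co

open Finset

/-- coordinates of the points and the strip width -/
structure Cfg (ι : Type) where
  X : ι → ℝ
  Y : ι → ℝ
  l : ℝ

namespace Cfg

variable {ι : Type} (C : Cfg ι)

def Adj (i j : ι) : Prop := (C.X j - C.X i) ^ 2 + (C.Y j - C.Y i) ^ 2 = 1

def f (u v : ℝ) (k : ι) : ℝ := u * C.X k + v * C.Y k

def Cut (u v c : ℝ) : Prop := u ^ 2 + v ^ 2 = 1 ∧ ∀ k, C.f u v k ≤ c ∨ c + C.l ≤ C.f u v k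

def Sep (u v c : ℝ) (i j : ι) : Prop := C.Cut u v c ∧ C.f u v i ≤ c ∧ c + C.l ≤ C.f u v j

structure Good : Prop where
  l0 : 0 < C.l
  l2 : 3 / 4 < C.l ^ 2
  pack : ∀ i j, i ≠ j → 1 ≤ (C.X j - C.X i) ^ 2 + (C.Y j - C.Y i) ^ 2
  sep : ∀ i j, C.Adj i j → ∃ u v c, C.Sep u v c i j

variable {C}

lemma Adj.symm {i j : ι} (h : C.Adj i j) : C.Adj j i := by
  unfold Adj at *; linarith [h, neg_sq (C.X j - C.X i), neg_sq (C.Y j - C.Y i),
    show (C.X i - C.X j) ^ 2 = (C.X j - C.X i) ^ 2 by ring,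
    show (C.Y i - C.Y j) ^ 2 = (C.Y j - C.Y i) ^ 2 by ring]

lemma Adj.ne {i j : ι} (h : C.Adj i j) : i ≠ j := by
  rintro rfl
  unfold Adj at h
  norm_num at h

lemma f_neg (u v : ℝ) (k : ι) : C.f (-u) (-v) k = - C.f u v k := by unfold f; ring

lemma Cut.flip {u v c : ℝ} (h : C.Cut u v c) : C.Cut (-u) (-v) (-c - C.l) := by
  refine ⟨by rw [neg_sq, neg_sq]; exact h.1, fun k => ?_⟩
  rw [f_neg]
  rcases h.2 k with h1 | h1
  · right; linarith
  · left; linarith

lemma Sep.flip {u v c : ℝ} {i j : ι} (h : C.Sep u v c i j) :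
    C.Sep (-u) (-v) (-c - C.l) j i := by
  refine ⟨h.1.flip, ?_, ?_⟩
  · rw [f_neg]; linarith [h.2.2]
  · rw [f_neg]; linarith [h.2.1]

lemma f_sub (u v : ℝ) (i j : ι) :
    u * (C.X j - C.X i) + v * (C.Y j - C.Y i) = C.f u v j - C.f u v i := by unfold f; ring

lemma Sep.le {u v c : ℝ} {i j : ι} (h : C.Sep u v c i j) :
    C.l ≤ u * (C.X j - C.X i) + v * (C.Y j - C.Y i) := by
  rw [f_sub]; linarith [h.2.1, h.2.2]

lemma Good.dot_le (G : C.Good) {x y z : ι} (hy : C.Adj x y) (hz : C.Adj x z) (hyz : y ≠ z) :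
    (C.X y - C.X x) * (C.X z - C.X x) + (C.Y y - C.Y x) * (C.Y z - C.Y x) ≤ 1 / 2 := by
  have h := G.pack y z hyz
  unfold Adj at hy hz
  have : (C.X z - C.X y) ^ 2 + (C.Y z - C.Y y) ^ 2 =
      ((C.X y - C.X x) ^ 2 + (C.Y y - C.Y x) ^ 2) + ((C.X z - C.X x) ^ 2 + (C.Y z - C.Y x) ^ 2)
      - 2 * ((C.X y - C.X x) * (C.X z - C.X x) + (C.Y y - C.Y x) * (C.Y z - C.Y x)) := by ring
  linarith

lemma Good.sq_gt (G : C.Good) {t : ℝ} (h : C.l ≤ t) : 0 < t ∧ 3 / 4 < t ^ 2 :=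
  ⟨lt_of_lt_of_le G.l0 h, lt_of_lt_of_le G.l2 (pow_le_pow_left₀ G.l0.le h 2)⟩

/-- edges across a strip form a matching -/
lemma Good.low (G : C.Good) {u v c : ℝ} {x y z : ι} (h : C.Sep u v c x y) (hy : C.Adj x y)
    (hz : C.Adj x z) (hyz : y ≠ z) : C.f u v z ≤ c := by
  rcases h.1.2 z with h1 | h1
  · exact h1
  · exfalso
    have h2 : C.Sep u v c x z := ⟨h.1, h.2.1, h1⟩
    have := dot_gt_half u v _ _ _ _ h.1.1 hy hz (G.sq_gt h.le).1 (G.sq_gt h2.le).1
      (G.sq_gt h.le).2 (G.sq_gt h2.le).2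
    linarith [G.dot_le hy hz hyz]

lemma Good.gap (G : C.Good) {u v c : ℝ} {x y z : ι} (h : C.Sep u v c x y) (hy : C.Adj x y)
    (hz : C.Adj x z) (hyz : y ≠ z) :
    C.l ≤ (u * (C.X y - C.X x) + v * (C.Y y - C.Y x))
      - (u * (C.X z - C.X x) + v * (C.Y z - C.Y x)) := by
  rw [f_sub, f_sub]
  linarith [G.low h hy hz hyz, h.2.2]

lemma Good.normals (G : C.Good) {u v c u' v' c' : ℝ} {x y z : ι} (h : C.Sep u v c x y)
    (h' : C.Sep u' v' c' x z) (hy : C.Adj x y) (hz : C.Adj x z) (hyz : y ≠ z) :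
    u * u' + v * v' < 1 / 2 :=
  normals_lt_half C.l u v u' v' _ _ _ _ G.l0 G.l2 h.1.1 h'.1.1 hy hz h.le (G.gap h hy hz hyz)
    h'.le (G.gap h' hz hy hyz.symm)

/-- two strips through the same edge have normals within 60 degrees -/
lemma Good.same_edge (G : C.Good) {u v c u' v' c' : ℝ} {x y : ι} (h : C.Sep u v c x y)
    (h' : C.Sep u' v' c' x y) (hy : C.Adj x y) : 1 / 2 < u * u' + v * v' := by
  have e1 := h.le
  have e2 := h'.le
  have e3 : (C.X y - C.X x) * u + (C.Y y - C.Y x) * v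
    = u * (C.X y - C.X x) + v * (C.Y y - C.Y x) := by ring
  have e4 : (C.X y - C.X x) * u' + (C.Y y - C.Y x) * v'
    = u' * (C.X y - C.X x) + v' * (C.Y y - C.Y x) := by ring
  apply dot_gt_half _ _ u v u' v' hy h.1.1 h'.1.1
  · rw [e3]; exact (G.sq_gt e1).1
  · rw [e4]; exact (G.sq_gt e2).1
  · rw [e3]; exact (G.sq_gt e1).2
  · rw [e4]; exact (G.sq_gt e2).2

variable (C)

/-- an edge with a strip whose normal is within 60 degrees of the upward direction -/
def Out (i j : ι) : Prop := C.Adj i j ∧ ∃ u v c, C.Sep u v c i j ∧ 1 / 2 ≤ v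

/-- a remaining edge, directed to the right -/
def Rt (i j : ι) : Prop :=
  C.Adj i j ∧ ¬ C.Out i j ∧ ¬ C.Out j i ∧ ∃ u v c, C.Sep u v c i j ∧ 0 < u

/-- some upward edge at `i` leans to the right -/
def LR (i : ι) : Prop := ∃ w, C.Out i w ∧ 0 < C.X w - C.X i

variable {C}

lemma Good.two_right (G : C.Good) {x y z : ι} (hy : C.Out x y) (hz : C.Out x z) (hyz : y ≠ z)
    (h1 : 0 ≤ C.X y - C.X x) (h2 : 0 ≤ C.X z - C.X x) : False := by
  obtain ⟨ay, u, v, c, s, hv⟩ := hy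
  obtain ⟨az, u', v', c', s', hv'⟩ := hz
  exact two_up C.l u v u' v' _ _ _ _ G.l0 G.l2 s.1.1 s'.1.1 ay az hv hv' h1 h2
    (G.dot_le ay az hyz) s.le (G.gap s ay az hyz) s'.le (G.gap s' az ay hyz.symm)

lemma Good.two_left (G : C.Good) {x y z : ι} (hy : C.Out x y) (hz : C.Out x z) (hyz : y ≠ z)
    (h1 : C.X y - C.X x ≤ 0) (h2 : C.X z - C.X x ≤ 0) : False := by
  obtain ⟨ay, u, v, c, s, hv⟩ := hy
  obtain ⟨az, u', v', c', s', hv'⟩ := hz
  have d := G.dot_le ay az hyz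
  have e1 := s.le
  have e2 := G.gap s ay az hyz
  have e3 := s'.le
  have e4 := G.gap s' az ay hyz.symm
  unfold Adj at ay az
  exact two_up C.l (-u) v (-u') v' (-(C.X y - C.X x)) (C.Y y - C.Y x) (-(C.X z - C.X x))
    (C.Y z - C.Y x) G.l0 G.l2 (by rw [neg_sq]; exact s.1.1) (by rw [neg_sq]; exact s'.1.1)
    (by rw [neg_sq]; exact ay) (by rw [neg_sq]; exact az) hv hv' (by linarith) (by linarith)
    (by linarith) (by linarith) (by linarith) (by linarith) (by linarith)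

lemma Rt.bounds {x y : ι} (h : C.Rt x y) {u v c : ℝ} (s : C.Sep u v c x y) :
    v < 1 / 2 ∧ -(1 / 2) < v := by
  constructor
  · by_contra hc
    exact h.2.1 ⟨h.1, u, v, c, s, by linarith⟩
  · by_contra hc
    exact h.2.2.1 ⟨h.1.symm, -u, -v, _, s.flip, by linarith⟩

lemma near_axis {u v u' v' : ℝ} (hu : u ^ 2 + v ^ 2 = 1) (hu' : u' ^ 2 + v' ^ 2 = 1)
    (h0 : 0 < u) (h0' : 0 < u') (b : v < 1 / 2 ∧ -(1 / 2) < v)
    (b' : v' < 1 / 2 ∧ -(1 / 2) < v') : 1 / 2 < u * u' + v * v' := by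
  have e1 : v ^ 2 < (1 / 2) ^ 2 := sq_lt_sq' b.2 b.1
  have e2 : v' ^ 2 < (1 / 2) ^ 2 := sq_lt_sq' b'.2 b'.1
  apply dot_gt_half 1 0 u v u' v' (by norm_num) hu hu'
  · linarith
  · linarith
  · have : (1 * u + 0 * v) ^ 2 = u ^ 2 := by ring
    linarith
  · have : (1 * u' + 0 * v') ^ 2 = u' ^ 2 := by ring
    linarith

lemma Good.rt_unique (G : C.Good) {x y z : ι} (hy : C.Rt x y) (hz : C.Rt x z) : y = z := by
  by_contra hyz
  obtain ⟨u, v, c, s, h0⟩ := hy.2.2.2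
  obtain ⟨u', v', c', s', h0'⟩ := hz.2.2.2
  have := G.normals s s' hy.1 hz.1 hyz
  have := near_axis s.1.1 s'.1.1 h0 h0' (hy.bounds s) (hz.bounds s')
  linarith

lemma Good.lt_unique (G : C.Good) {x y z : ι} (hy : C.Rt y x) (hz : C.Rt z x) : y = z := by
  by_contra hyz
  obtain ⟨u, v, c, s, h0⟩ := hy.2.2.2
  obtain ⟨u', v', c', s', h0'⟩ := hz.2.2.2
  have := G.normals s.flip s'.flip hy.1.symm hz.1.symm hyz
  have := near_axis s.1.1 s'.1.1 h0 h0' (hy.bounds s) (hz.bounds s')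
  linarith

lemma Good.cases (G : C.Good) {x y : ι} (h : C.Adj x y) :
    C.Out x y ∨ C.Out y x ∨ C.Rt x y ∨ C.Rt y x := by
  by_cases h1 : C.Out x y
  · exact Or.inl h1
  by_cases h2 : C.Out y x
  · exact Or.inr (Or.inl h2)
  right; right
  obtain ⟨u, v, c, s⟩ := G.sep x y h
  rcases lt_trichotomy 0 u with h0 | h0 | h0
  · exact Or.inl ⟨h, h1, h2, u, v, c, s, h0⟩
  · exfalso
    have e := s.1.1
    rw [← h0] at e
    have e2 : (v - 1) * (v + 1) = 0 := by linarith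
    rcases mul_eq_zero.mp e2 with e3 | e3
    · exact h1 ⟨h, u, v, c, s, by linarith⟩
    · exact h2 ⟨h.symm, -u, -v, _, s.flip, by linarith⟩
  · exact Or.inr ⟨h.symm, h2, h1, -u, -v, _, s.flip, by linarith⟩

lemma Good.out_up (G : C.Good) {x y : ι} (h : C.Out x y) : 0 < C.Y y - C.Y x := by
  obtain ⟨a, u, v, c, s, hv⟩ := h
  exact up_pos C.l u v _ _ G.l0 G.l2 s.1.1 a hv s.le

lemma Good.propagate (G : C.Good) {x y w' : ι} (h : C.Rt x y) (hx : C.LR x) (hw' : C.Out y w') :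
    0 < C.X w' - C.X y := by
  obtain ⟨w, hw, hs⟩ := hx
  obtain ⟨u, v, c, s, h0⟩ := h.2.2.2
  have hyw : y ≠ w := by rintro rfl; exact h.2.1 hw
  have hxw : x ≠ w' := by rintro rfl; exact h.2.2.1 hw'
  have low := G.low s h.1 hw.1 hyw
  have high := G.low s.flip h.1.symm hw'.1 hxw
  rw [f_neg] at high
  have hww : w ≠ w' := by
    rintro rfl
    linarith [G.l0]
  have p := G.pack w w' hww
  apply lean_right C.l u v (C.X y - C.X x) (C.Y y - C.Y x) (C.X w - C.X x) (C.Y w - C.Y x)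
    (C.X w' - C.X y) (C.Y w' - C.Y y) G.l0 G.l2 s.1.1 h0 (h.bounds s).1 (h.bounds s).2
    h.1 hw.1 hw'.1 (G.out_up hw) (G.out_up hw') hs s.le (G.gap s h.1 hw.1 hyw)
  · rw [f_sub, f_sub]
    linarith [s.2.1]
  · have e : (C.X y - C.X x + (C.X w' - C.X y) - (C.X w - C.X x)) ^ 2 +
        (C.Y y - C.Y x + (C.Y w' - C.Y y) - (C.Y w - C.Y x)) ^ 2
        = (C.X w' - C.X w) ^ 2 + (C.Y w' - C.Y w) ^ 2 := by ring
    rw [e]; exact p

section Count

variable [Fintype ι]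

open Classical in
lemma Good.out_card (G : C.Good) (x : ι) : (univ.filter (C.Out x)).card ≤ 2 := by
  by_contra hc
  push Not at hc
  obtain ⟨a, ha, b, hb, c, hc', hab, hac, hbc⟩ := Finset.two_lt_card.mp hc
  simp only [mem_filter, mem_univ, true_and] at ha hb hc'
  rcases le_total 0 (C.X a - C.X x) with h1 | h1 <;>
  rcases le_total 0 (C.X b - C.X x) with h2 | h2 <;>
  rcases le_total 0 (C.X c - C.X x) with h3 | h3
  · exact G.two_right ha hb hab h1 h2
  · exact G.two_right ha hb hab h1 h2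
  · exact G.two_right ha hc' hac h1 h3
  · exact G.two_left hb hc' hbc h2 h3
  · exact G.two_right hb hc' hbc h2 h3
  · exact G.two_left ha hc' hac h1 h3
  · exact G.two_left ha hb hab h1 h2
  · exact G.two_left ha hb hab h1 h2

open Classical in
lemma Good.local_ineq (G : C.Good) (K : Finset ι) (x : ι) :
    (univ.filter (C.Out x)).card + (K.filter (C.Rt x)).card
      + (K.filter (fun z => C.Rt z x ∧ C.LR z)).card
      ≤ 2 + (K.filter (fun y => C.Rt x y ∧ C.LR x)).card := by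
  have hR : (K.filter (C.Rt x)).card ≤ 1 := by
    apply Finset.card_le_one.mpr
    intro a ha b hb
    exact G.rt_unique (mem_filter.mp ha).2 (mem_filter.mp hb).2
  have hA : (K.filter (fun z => C.Rt z x ∧ C.LR z)).card ≤ 1 := by
    apply Finset.card_le_one.mpr
    intro a ha b hb
    exact G.lt_unique (mem_filter.mp ha).2.1 (mem_filter.mp hb).2.1
  have hO := G.out_card x
  have hT : C.LR x → (K.filter (fun y => C.Rt x y ∧ C.LR x)).card = (K.filter (C.Rt x)).card := by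
    intro h
    congr 1
    ext y
    simp [h]
  rcases Nat.eq_zero_or_pos (K.filter (fun z => C.Rt z x ∧ C.LR z)).card with h0 | h0
  · rcases Nat.lt_or_ge 1 (univ.filter (C.Out x)).card with h1 | h1
    · obtain ⟨a, ha, b, hb, hab⟩ := Finset.one_lt_card.mp h1
      simp only [mem_filter, mem_univ, true_and] at ha hb
      have : C.LR x := by
        by_contra hc
        apply G.two_left ha hb hab
        · by_contra h; exact hc ⟨a, ha, by linarith⟩
        · by_contra h; exact hc ⟨b, hb, by linarith⟩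
      have := hT this
      omega
    · omega
  · obtain ⟨z, hz⟩ := Finset.card_pos.mp h0
    obtain ⟨hz1, hz2⟩ := (mem_filter.mp hz).2
    have h1 : (univ.filter (C.Out x)).card ≤ 1 := by
      apply Finset.card_le_one.mpr
      intro a ha b hb
      simp only [mem_filter, mem_univ, true_and] at ha hb
      by_contra hab
      exact G.two_right ha hb hab (G.propagate hz1 hz2 ha).le (G.propagate hz1 hz2 hb).le
    rcases Nat.eq_zero_or_pos (univ.filter (C.Out x)).card with h2 | h2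
    · omega
    · obtain ⟨a, ha⟩ := Finset.card_pos.mp h2
      simp only [mem_filter, mem_univ, true_and] at ha
      have := hT ⟨a, ha, G.propagate hz1 hz2 ha⟩
      omega

omit [Fintype ι] in
lemma sum_swap_card (K : Finset ι) (R : ι → ι → Prop) [∀ x y, Decidable (R x y)] :
    ∑ x ∈ K, (K.filter (fun y => R y x)).card = ∑ x ∈ K, (K.filter (fun y => R x y)).card := by
  simp only [Finset.card_filter]
  exact Finset.sum_comm

variable (C) in
open Classical in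
/-- twice the number of edges inside `K` -/
noncomputable def D (K : Finset ι) : ℕ := ∑ x ∈ K, (K.filter (C.Adj x)).card

open Classical in
lemma Good.wedge_axis (G : C.Good) (K : Finset ι) :
    C.D K + 2 * ∑ x ∈ K, (univ.filter (fun y => C.Out x y ∧ y ∉ K)).card ≤ 4 * K.card := by
  have h1 : C.D K ≤ ∑ x ∈ K, ((K.filter (fun y => C.Out x y)).card
      + (K.filter (fun y => C.Out y x)).card + (K.filter (fun y => C.Rt x y)).card
      + (K.filter (fun y => C.Rt y x)).card) := by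
    unfold D
    apply Finset.sum_le_sum
    intro x _
    simp only [Finset.card_filter, ← Finset.sum_add_distrib]
    apply Finset.sum_le_sum
    intro y _
    by_cases h : C.Adj x y
    · rcases G.cases h with h' | h' | h' | h' <;> simp only [h, h', if_true] <;> omega
    · simp [h]
  simp only [Finset.sum_add_distrib] at h1
  rw [sum_swap_card K C.Out, sum_swap_card K C.Rt] at h1
  have h2 := Finset.sum_le_sum (s := K) (fun x _ => G.local_ineq K x)
  simp only [Finset.sum_add_distrib] at h2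
  rw [sum_swap_card K (fun z x => C.Rt z x ∧ C.LR z)] at h2
  have h3 : ∑ x ∈ K, (univ.filter (C.Out x)).card =
      ∑ x ∈ K, (K.filter (fun y => C.Out x y)).card
        + ∑ x ∈ K, (univ.filter (fun y => C.Out x y ∧ y ∉ K)).card := by
    rw [← Finset.sum_add_distrib]
    apply Finset.sum_congr rfl
    intro x _
    rw [← Finset.card_filter_add_card_filter_not (s := univ.filter (C.Out x)) (fun y => y ∈ K)]
    congr 2
    · ext y; simp [and_comm]
    · ext y; simp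
  simp only [Finset.sum_const, smul_eq_mul] at h2
  have h4 : ∑ x ∈ K, (K.filter (C.Rt x)).card = ∑ x ∈ K, (K.filter (fun y => C.Rt x y)).card := rfl
  omega

end Count

/-- rotate the configuration so that `(b1, b2)` becomes the upward direction -/
def rot (C : Cfg ι) (b1 b2 : ℝ) : Cfg ι :=
  ⟨fun k => b2 * C.X k - b1 * C.Y k, fun k => b1 * C.X k + b2 * C.Y k, C.l⟩

lemma rot_dist {b1 b2 : ℝ} (hb : b1 ^ 2 + b2 ^ 2 = 1) (i j : ι) :
    ((C.rot b1 b2).X j - (C.rot b1 b2).X i) ^ 2 + ((C.rot b1 b2).Y j - (C.rot b1 b2).Y i) ^ 2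
      = (C.X j - C.X i) ^ 2 + (C.Y j - C.Y i) ^ 2 := by
  simp only [rot]
  linear_combination ((C.X j - C.X i) ^ 2 + (C.Y j - C.Y i) ^ 2) * hb

lemma rot_adj {b1 b2 : ℝ} (hb : b1 ^ 2 + b2 ^ 2 = 1) (i j : ι) :
    (C.rot b1 b2).Adj i j ↔ C.Adj i j := by
  unfold Adj; rw [rot_dist hb]

lemma rot_f {b1 b2 : ℝ} (hb : b1 ^ 2 + b2 ^ 2 = 1) (u v : ℝ) (k : ι) :
    (C.rot b1 b2).f (b2 * u - b1 * v) (b1 * u + b2 * v) k = C.f u v k := by
  simp only [rot, f]
  linear_combination (u * C.X k + v * C.Y k) * hb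

lemma Sep.rot {b1 b2 : ℝ} (hb : b1 ^ 2 + b2 ^ 2 = 1) {u v c : ℝ} {i j : ι}
    (h : C.Sep u v c i j) : (C.rot b1 b2).Sep (b2 * u - b1 * v) (b1 * u + b2 * v) c i j := by
  refine ⟨⟨?_, fun k => ?_⟩, ?_, ?_⟩
  · have := h.1.1
    linear_combination (u ^ 2 + v ^ 2) * hb + this
  · rw [rot_f hb]; exact h.1.2 k
  · rw [rot_f hb]; exact h.2.1
  · rw [rot_f hb]; exact h.2.2

lemma Good.rot (G : C.Good) {b1 b2 : ℝ} (hb : b1 ^ 2 + b2 ^ 2 = 1) : (C.rot b1 b2).Good := by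
  refine ⟨G.l0, G.l2, fun i j h => ?_, fun i j h => ?_⟩
  · rw [rot_dist hb]; exact G.pack i j h
  · obtain ⟨u, v, c, s⟩ := G.sep i j ((rot_adj hb i j).mp h)
    exact ⟨_, _, _, s.rot hb⟩

lemma out_rot {b1 b2 : ℝ} (hb : b1 ^ 2 + b2 ^ 2 = 1) {u v c : ℝ} {i j : ι} (a : C.Adj i j)
    (h : C.Sep u v c i j) (h2 : 1 / 2 ≤ b1 * u + b2 * v) : (C.rot b1 b2).Out i j :=
  ⟨(rot_adj hb i j).mpr a, _, _, _, h.rot hb, h2⟩

lemma rot_D [Fintype ι] {b1 b2 : ℝ} (hb : b1 ^ 2 + b2 ^ 2 = 1) (K : Finset ι) :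
    (C.rot b1 b2).D K = C.D K := by
  unfold D
  apply Finset.sum_congr rfl
  intro x _
  congr 1
  ext y
  simp only [mem_filter, rot_adj hb]

end Cfg

end Pool.Agent.Lib.MP_6a1796_co
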