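import Mathlib
import Pool.Agent.Lib.MP_6a1796_co.Wedge

/-! The cutting induction. -/

namespace Pool.Agent.Lib.MP_6a1796_co

open Finset

lemma mono_prod (S x y : ℕ) (h1 : x ≤ y) (h2 : 2 * y ≤ S) : x * (S - x) ≤ y * (S - y) := by
  obtain ⟨d, rfl⟩ := Nat.exists_eq_add_of_le h1
  obtain ⟨e, rfl⟩ := Nat.exists_eq_add_of_le h2
  have e1 : 2 * (x + d) + e - x = x + 2 * d + e := by omega
  have e2 : 2 * (x + d) + e - (x + d) = x + d + e := by omega
  rw [e1, e2]
  nlinarith [Nat.zero_le (d * d), Nat.zero_le (d * e)]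

lemma typed (n S a b r1 c1 r2 c2 : ℕ) (h1 : n ≤ r1 * c1) (h2 : r1 + c1 ≤ S) (h3 : a ≤ c1)
    (h4 : n ≤ r2 * c2) (h5 : r2 + c2 ≤ S) (h6 : b ≤ c2) (h7 : a + b ≤ S) :
    ∃ r c, n ≤ r * c ∧ r + c ≤ S ∧ a ≤ c ∧ b ≤ r := by
  by_cases k1 : b ≤ r1
  · exact ⟨r1, c1, h1, h2, h3, k1⟩
  by_cases k2 : a ≤ r2
  · exact ⟨c2, r2, by rw [mul_comm]; exact h4, by omega, k2, h6⟩
  refine ⟨S - a, a, ?_, by omega, le_rfl, by omega⟩
  have e1 : r1 * c1 ≤ r1 * (S - r1) := Nat.mul_le_mul_left _ (by omega)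
  have e2 : r2 * c2 ≤ r2 * (S - r2) := Nat.mul_le_mul_left _ (by omega)
  rcases le_total (2 * a) S with k | k
  · have := mono_prod S r2 a (by omega) k
    rw [mul_comm]; omega
  · have := mono_prod S r1 (S - a) (by omega) (by omega)
    have e3 : S - (S - a) = a := by omega
    rw [e3] at this
    omega

namespace Cfg

variable {ι : Type} [Fintype ι] (C : Cfg ι)

open Classical in
/-- the number of points of `K` having a neighbour on the far side of the strip -/
noncomputable def a (K : Finset ι) (u v c : ℝ) : ℕ :=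
  (K.filter (fun x => ∃ y, C.Adj x y ∧ c + C.l ≤ C.f u v y)).card

def Low (K : Finset ι) (u v c : ℝ) : Prop := ∀ x ∈ K, C.f u v x ≤ c

variable {C}

open Classical in
lemma Good.wedge (G : C.Good) (K : Finset ι) {u v c u' v' c' : ℝ} (h : C.Cut u v c)
    (h' : C.Cut u' v' c') (hK : C.Low K u v c) (hK' : C.Low K u' v' c')
    (g1 : u * u' + v * v' < 1 / 2) (g2 : -(1 / 2) < u * u' + v * v') :
    C.D K + 2 * (C.a K u v c + C.a K u' v' c') ≤ 4 * K.card := by
  obtain ⟨N, hN0, hN⟩ : ∃ N : ℝ, 0 < N ∧ N ^ 2 = 2 + 2 * (u * u' + v * v') :=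
    ⟨Real.sqrt (2 + 2 * (u * u' + v * v')), Real.sqrt_pos.mpr (by linarith),
      Real.sq_sqrt (by linarith)⟩
  have hN1 : 1 < N := by
    by_contra hc
    push Not at hc
    nlinarith
  have hb : ((u + u') / N) ^ 2 + ((v + v') / N) ^ 2 = 1 := by
    field_simp
    rw [hN]
    linear_combination h.1 + h'.1
  have hb1 : 1 / 2 ≤ (u + u') / N * u + (v + v') / N * v := by
    have : (u + u') / N * u + (v + v') / N * v = N / 2 := by
      field_simp
      rw [hN]
      linear_combination 2 * h.1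
    rw [this]; linarith
  have hb2 : 1 / 2 ≤ (u + u') / N * u' + (v + v') / N * v' := by
    have : (u + u') / N * u' + (v + v') / N * v' = N / 2 := by
      field_simp
      rw [hN]
      linear_combination 2 * h'.1
    rw [this]; linarith
  have W := (G.rot hb).wedge_axis K
  rw [rot_D hb] at W
  refine le_trans ?_ W
  apply Nat.add_le_add_left
  apply Nat.mul_le_mul_left
  unfold a
  rw [Finset.card_filter, Finset.card_filter, ← Finset.sum_add_distrib]
  apply Finset.sum_le_sum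
  intro x hx
  have mem : ∀ y, C.Adj x y → c + C.l ≤ C.f u v y →
      y ∈ univ.filter (fun y => (C.rot ((u + u') / N) ((v + v') / N)).Out x y ∧ y ∉ K) := by
    intro y ay hy
    simp only [mem_filter, mem_univ, true_and]
    refine ⟨out_rot hb ay ⟨h, hK x hx, hy⟩ hb1, fun hyK => ?_⟩
    linarith [hK y hyK, G.l0]
  have mem' : ∀ y, C.Adj x y → c' + C.l ≤ C.f u' v' y →
      y ∈ univ.filter (fun y => (C.rot ((u + u') / N) ((v + v') / N)).Out x y ∧ y ∉ K) := by
    intro y ay hy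
    simp only [mem_filter, mem_univ, true_and]
    refine ⟨out_rot hb ay ⟨h', hK' x hx, hy⟩ hb2, fun hyK => ?_⟩
    linarith [hK' y hyK, G.l0]
  split_ifs with p1 p2 p2
  · obtain ⟨y, ay, hy⟩ := p1
    obtain ⟨z, az, hz⟩ := p2
    have hyz : y ≠ z := by
      rintro rfl
      have := G.same_edge ⟨h, hK x hx, hy⟩ ⟨h', hK' x hx, hz⟩ ay
      linarith
    exact Finset.one_lt_card.mpr ⟨y, mem y ay hy, z, mem' z az hz, hyz⟩
  · obtain ⟨y, ay, hy⟩ := p1
    exact Finset.card_pos.mpr ⟨y, mem y ay hy⟩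
  · obtain ⟨y, ay, hy⟩ := p2
    exact Finset.card_pos.mpr ⟨y, mem' y ay hy⟩
  · exact Nat.zero_le _

open Classical in
lemma Good.all_bad (G : C.Good) (K : Finset ι) {u v c : ℝ} (h : C.Cut u v c)
    (hK : C.Low K u v c)
    (hbad : ∀ x ∈ K, ∀ y ∈ K, C.Adj x y → (C.rot u v).Out x y ∨ (C.rot u v).Out y x) :
    C.D K + 4 * C.a K u v c ≤ 4 * K.card := by
  have G' := G.rot h.1
  have h1 : C.D K ≤ ∑ x ∈ K, ((K.filter (fun y => (C.rot u v).Out x y)).card
      + (K.filter (fun y => (C.rot u v).Out y x)).card) := by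
    unfold D
    apply Finset.sum_le_sum
    intro x hx
    simp only [Finset.card_filter, ← Finset.sum_add_distrib]
    apply Finset.sum_le_sum
    intro y hy
    by_cases hxy : C.Adj x y
    · rcases hbad x hx y hy hxy with h' | h' <;> simp only [hxy, h', if_true] <;> omega
    · simp [hxy]
  rw [Finset.sum_add_distrib, sum_swap_card K (C.rot u v).Out] at h1
  have h2 : ∑ x ∈ K, ((K.filter (fun y => (C.rot u v).Out x y)).card
      + 2 * (if ∃ y, C.Adj x y ∧ c + C.l ≤ C.f u v y then 1 else 0)) ≤ ∑ x ∈ K, 2 := by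
    apply Finset.sum_le_sum
    intro x hx
    split_ifs with p
    · obtain ⟨y, ay, hy⟩ := p
      have : K.filter (fun y => (C.rot u v).Out x y) = ∅ := by
        apply Finset.filter_eq_empty_iff.mpr
        rintro z hz ⟨az, u', v', c', s', hv'⟩
        have hyz : y ≠ z := by
          rintro rfl
          linarith [hK y hz, G.l0]
        have s : C.Sep u v c x y := ⟨h, hK x hx, hy⟩
        have := G'.normals (s.rot h.1) s' ((rot_adj h.1 x y).mpr ay) az hyz
        have e : (v * u - u * v) * u' + (u * u + v * v) * v' = v' := by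
          linear_combination v' * h.1
        linarith
      rw [this]; simp
    · have := G'.out_card x
      have h3 : (K.filter (fun y => (C.rot u v).Out x y)).card
          ≤ (univ.filter ((C.rot u v).Out x)).card :=
        Finset.card_le_card (Finset.filter_subset_filter _ (Finset.subset_univ K))
      omega
  rw [Finset.sum_add_distrib, ← Finset.mul_sum, ← Finset.card_filter] at h2
  simp only [Finset.sum_const, smul_eq_mul] at h2
  unfold a
  omega

open Classical in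
lemma Good.cross_le (G : C.Good) (K1 K2 : Finset ι) {u v c : ℝ} (h : C.Cut u v c)
    (h1 : C.Low K1 u v c) (h2 : ∀ y ∈ K2, c + C.l ≤ C.f u v y) :
    ∑ x ∈ K1, (K2.filter (C.Adj x)).card ≤ C.a K1 u v c := by
  unfold a
  rw [Finset.card_filter]
  apply Finset.sum_le_sum
  intro x hx
  split_ifs with p
  · apply Finset.card_le_one.mpr
    intro y hy z hz
    by_contra hyz
    obtain ⟨hy1, hy2⟩ := mem_filter.mp hy
    obtain ⟨hz1, hz2⟩ := mem_filter.mp hz
    have := G.low ⟨h, h1 x hx, h2 y hy1⟩ hy2 hz2 hyz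
    linarith [h2 z hz1, G.l0]
  · apply le_of_eq
    rw [Finset.card_eq_zero, Finset.filter_eq_empty_iff]
    intro y hy ay
    exact p ⟨y, ay, h2 y hy⟩

open Classical in
lemma Good.split (G : C.Good) (K : Finset ι) {u v c : ℝ} {x y : ι} (hx : x ∈ K) (hy : y ∈ K)
    (s : C.Sep u v c x y) :
    ∃ K1 K2 : Finset ι, ∃ m : ℕ, K1 ⊆ K ∧ K2 ⊆ K ∧ K1.card + K2.card = K.card ∧
      K1.card < K.card ∧ K2.card < K.card ∧ C.Low K1 u v c ∧ C.Low K2 (-u) (-v) (-c - C.l) ∧
      C.D K = C.D K1 + C.D K2 + 2 * m ∧ m ≤ C.a K1 u v c ∧ m ≤ C.a K2 (-u) (-v) (-c - C.l) ∧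
      ∀ u' v' c', C.a K u' v' c' = C.a K1 u' v' c' + C.a K2 u' v' c' := by
  set K1 := K.filter (fun z => C.f u v z ≤ c) with hK1
  set K2 := K.filter (fun z => ¬ C.f u v z ≤ c) with hK2
  have hcard : K1.card + K2.card = K.card := Finset.card_filter_add_card_filter_not _
  have hx1 : x ∈ K1 := mem_filter.mpr ⟨hx, s.2.1⟩
  have hy2 : y ∈ K2 := mem_filter.mpr ⟨hy, by linarith [s.2.2, G.l0]⟩
  have p1 : 0 < K1.card := Finset.card_pos.mpr ⟨x, hx1⟩
  have p2 : 0 < K2.card := Finset.card_pos.mpr ⟨y, hy2⟩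
  have L1 : C.Low K1 u v c := fun z hz => (mem_filter.mp hz).2
  have H2 : ∀ z ∈ K2, c + C.l ≤ C.f u v z := fun z hz =>
    (s.1.2 z).resolve_left (mem_filter.mp hz).2
  have L2 : C.Low K2 (-u) (-v) (-c - C.l) := fun z hz => by
    rw [f_neg]; linarith [H2 z hz]
  have H1 : ∀ z ∈ K1, (-c - C.l) + C.l ≤ C.f (-u) (-v) z := fun z hz => by
    rw [f_neg]; linarith [L1 z hz]
  have hsplit : ∀ (P : ι → Prop) [DecidablePred P],
      (K.filter P).card = (K1.filter P).card + (K2.filter P).card := by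
    intro P _
    rw [← Finset.card_filter_add_card_filter_not (s := K.filter P) (fun z => C.f u v z ≤ c),
      hK1, hK2, Finset.filter_comm, Finset.filter_comm P]
  have hsw : ∑ z ∈ K2, (K1.filter (C.Adj z)).card = ∑ z ∈ K1, (K2.filter (C.Adj z)).card := by
    simp only [Finset.card_filter]
    rw [Finset.sum_comm]
    apply Finset.sum_congr rfl
    intro a _
    apply Finset.sum_congr rfl
    intro b _
    have : C.Adj b a ↔ C.Adj a b := ⟨Adj.symm, Adj.symm⟩
    simp only [this]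
  refine ⟨K1, K2, ∑ z ∈ K1, (K2.filter (C.Adj z)).card, Finset.filter_subset _ _,
    Finset.filter_subset _ _, hcard, by omega, by omega, L1, L2, ?_,
    G.cross_le K1 K2 s.1 L1 H2, ?_, ?_⟩
  · unfold D
    rw [← Finset.sum_filter_add_sum_filter_not K (fun z => C.f u v z ≤ c)]
    simp only [hsplit, Finset.sum_add_distrib]
    rw [← hK1, ← hK2, hsw]
    ring
  · rw [← hsw]
    exact G.cross_le K2 K1 s.1.flip L2 H1
  · intro u' v' c'
    unfold a
    exact hsplit _

theorem Good.main (G : C.Good) (n : ℕ) : ∀ K : Finset ι, K.card = n →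
    (∃ r c, K.card ≤ r * c ∧ 2 * (r + c) + C.D K ≤ 4 * K.card) ∧
    ∀ u v c0, C.Cut u v c0 → C.Low K u v c0 →
      ∃ r c, K.card ≤ r * c ∧ 2 * (r + c) + C.D K ≤ 4 * K.card ∧ C.a K u v c0 ≤ c := by
  classical
  induction n using Nat.strong_induction_on with
  | _ n ih =>
  intro K hK
  have A : ∃ r c, K.card ≤ r * c ∧ 2 * (r + c) + C.D K ≤ 4 * K.card := by
    by_cases hE : ∃ x ∈ K, ∃ y ∈ K, C.Adj x y
    · obtain ⟨x, hx, y, hy, axy⟩ := hE
      obtain ⟨u, v, c, s⟩ := G.sep x y axy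
      obtain ⟨K1, K2, m, -, -, hc, l1, l2, L1, L2, hD, m1, m2, -⟩ := G.split K hx hy s
      obtain ⟨r1, c1, a1, a2, a3⟩ := (ih _ (hK ▸ l1) K1 rfl).2 _ _ _ s.1 L1
      obtain ⟨r2, c2, b1, b2, b3⟩ := (ih _ (hK ▸ l2) K2 rfl).2 _ _ _ s.1.flip L2
      refine ⟨r1 + r2, max c1 c2, ?_, by omega⟩
      have e1 : r1 * c1 ≤ r1 * max c1 c2 := Nat.mul_le_mul_left _ (le_max_left _ _)
      have e2 : r2 * c2 ≤ r2 * max c1 c2 := Nat.mul_le_mul_left _ (le_max_right _ _)
      rw [add_mul]; omega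
    · have hD : C.D K = 0 := by
        unfold D
        apply Finset.sum_eq_zero
        intro x hx
        rw [Finset.card_eq_zero, Finset.filter_eq_empty_iff]
        intro y hy axy
        exact hE ⟨x, hx, y, hy, axy⟩
      rcases Nat.eq_zero_or_pos K.card with h0 | h0
      · exact ⟨0, 0, by omega, by omega⟩
      · exact ⟨1, K.card, by omega, by omega⟩
  refine ⟨A, fun u v c0 hcut hlow => ?_⟩
  by_cases hbad : ∀ x ∈ K, ∀ y ∈ K, C.Adj x y → (C.rot u v).Out x y ∨ (C.rot u v).Out y x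
  · have hb := G.all_bad K hcut hlow hbad
    obtain ⟨r, c, a1, a2⟩ := A
    by_cases k1 : C.a K u v c0 ≤ c
    · exact ⟨r, c, a1, a2, k1⟩
    by_cases k2 : C.a K u v c0 ≤ r
    · exact ⟨c, r, by rw [mul_comm]; exact a1, by omega, k2⟩
    refine ⟨C.a K u v c0, C.a K u v c0, ?_, by omega, le_rfl⟩
    exact le_trans a1 (Nat.mul_le_mul (by omega) (by omega))
  · push Not at hbad
    obtain ⟨x, hx, y, hy, axy, n1, n2⟩ := hbad
    obtain ⟨u', v', c', s⟩ := G.sep x y axy
    have g1 : u * u' + v * v' < 1 / 2 := by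
      by_contra hc
      exact n1 (out_rot hcut.1 axy s (by linarith))
    have g2 : -(1 / 2) < u * u' + v * v' := by
      by_contra hc
      exact n2 (out_rot hcut.1 axy.symm s.flip (by linarith))
    obtain ⟨K1, K2, m, s1, s2, hc, l1, l2, L1, L2, hD, m1, m2, ha⟩ := G.split K hx hy s
    have low1 : C.Low K1 u v c0 := fun z hz => hlow z (s1 hz)
    have low2 : C.Low K2 u v c0 := fun z hz => hlow z (s2 hz)
    have W1 := G.wedge K1 hcut s.1 low1 L1 g1 g2
    have W2 := G.wedge K2 hcut s.1.flip low2 L2 (by linarith) (by linarith)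
    obtain ⟨r1, c1, a1, a2, a3⟩ := (ih _ (hK ▸ l1) K1 rfl).2 _ _ _ hcut low1
    obtain ⟨r1', c1', a1', a2', a3'⟩ := (ih _ (hK ▸ l1) K1 rfl).2 _ _ _ s.1 L1
    obtain ⟨r2, c2, b1, b2, b3⟩ := (ih _ (hK ▸ l2) K2 rfl).2 _ _ _ hcut low2
    obtain ⟨r2', c2', b1', b2', b3'⟩ := (ih _ (hK ▸ l2) K2 rfl).2 _ _ _ s.1.flip L2
    obtain ⟨R1, C1, p1, p2, p3, p4⟩ := typed K1.card ((4 * K1.card - C.D K1) / 2) _ _ r1 c1 r1' c1'
      a1 (by omega) a3 a1' (by omega) a3' (by omega)
    obtain ⟨R2, C2, q1, q2, q3, q4⟩ := typed K2.card ((4 * K2.card - C.D K2) / 2) _ _ r2 c2 r2' c2'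
      b1 (by omega) b3 b1' (by omega) b3' (by omega)
    refine ⟨max R1 R2, C1 + C2, ?_, by omega, by rw [ha]; omega⟩
    have e1 : R1 * C1 ≤ max R1 R2 * C1 := Nat.mul_le_mul_right _ (le_max_left _ _)
    have e2 : R2 * C2 ≤ max R1 R2 * C2 := Nat.mul_le_mul_right _ (le_max_right _ _)
    rw [mul_add]; omega

end Cfg

end Pool.Agent.Lib.MP_6a1796_co
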